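import Mathlib

/-!
The star theorem (helper57), analytic part: an `l^1` maximum principle.
`f : Finset V → ℂ` satisfies the Ward identity at every vertex; then `f` never vanishes when the
real parts of the weights `W` are nonnegative.
-/

namespace Pool.Agent.StarN

open Finset Classical

variable {V : Type*} [Fintype V]

/-- number of root edges at `k` after contracting the complement of `S` to the root -/
noncomputable def zS (adj : V → V → Prop) (z : V → ℕ) (S : Finset V) (k : V) : ℕ :=
  z k + (univ.filter (fun l => l ∉ S ∧ adj l k)).card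

/-- path sums: `N S l k` is the sum over the paths `P` from `l` to `k` inside `S` of `f (S \ P)` -/
noncomputable def N (adj : V → V → Prop) (f : Finset V → ℂ) : Finset V → V → V → ℂ
  | S, l, k =>
    if _h : l ∈ S then
      if l = k then f (S.erase l)
      else ∑ m ∈ (S.erase l).filter (fun m => adj l m), N adj f (S.erase l) m k
    else 0
  termination_by S => S.card
  decreasing_by exact Finset.card_erase_lt_of_mem _h

/-- neighbours of `j` inside `S` -/
noncomputable def nb (adj : V → V → Prop) (S : Finset V) (j : V) : Finset V :=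
  (S.erase j).filter (fun m => adj j m)

omit [Fintype V] in
theorem N_self (adj : V → V → Prop) (f : Finset V → ℂ) {S : Finset V} {l : V} (h : l ∈ S) :
    N adj f S l l = f (S.erase l) := by
  rw [N]; simp [h]

omit [Fintype V] in
theorem N_ne (adj : V → V → Prop) (f : Finset V → ℂ) {S : Finset V} {l k : V} (h : l ∈ S)
    (hk : l ≠ k) : N adj f S l k = ∑ m ∈ nb adj S l, N adj f (S.erase l) m k := by
  rw [N]; simp [h, hk, nb]

theorem zS_erase (adj : V → V → Prop) (z : V → ℕ) {S : Finset V} {j : V}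
    (hj : j ∈ S) (k : V) :
    zS adj z (S.erase j) k = zS adj z S k + (if adj j k then 1 else 0) := by
  unfold zS
  have h : (univ.filter (fun l => l ∉ S.erase j ∧ adj l k)) =
      (univ.filter (fun l => l ∉ S ∧ adj l k)) ∪ (if adj j k then {j} else ∅) := by
    ext l
    by_cases hl : l = j
    · subst hl
      by_cases ha : adj l k <;> simp [ha]
    · by_cases ha : adj j k <;> simp [ha, hl]
  rw [h, card_union_of_disjoint]
  · by_cases ha : adj j k <;> simp [ha]; omega
  · by_cases ha : adj j k <;> simp [ha, hj]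

/-- the identity (1) -/
theorem rec1 (adj : V → V → Prop) (z : V → ℕ) (W : V → ℂ) (f : Finset V → ℂ)
    (hW : ∀ S : Finset V, ∀ j ∈ S, f S = (W j + zS adj z S j - 2) * f (S.erase j) +
      ∑ k ∈ S.erase j, (W k + zS adj z S k) * N adj f S j k)
    (S : Finset V) (j : V) (hj : j ∈ S) :
    f S = (W j + zS adj z S j - 2 + (nb adj S j).card) * f (S.erase j) +
      ∑ l ∈ nb adj S j, f ((S.erase j).erase l) -
      ∑ l ∈ nb adj S j, ∑ k ∈ (nb adj S j).erase l, N adj f (S.erase j) l k := by
  have key : ∀ l ∈ nb adj S j, ∑ k ∈ S.erase j, (W k + zS adj z S k) * N adj f (S.erase j) l k =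
      f (S.erase j) + f ((S.erase j).erase l) -
        ∑ k ∈ (nb adj S j).erase l, N adj f (S.erase j) l k := by
    intro l hl
    have hlT : l ∈ S.erase j := (mem_filter.1 hl).1
    have h1 := hW (S.erase j) l hlT
    have h2 : ∑ k ∈ S.erase j, (W k + zS adj z S k) * N adj f (S.erase j) l k =
        ∑ k ∈ S.erase j, (W k + zS adj z (S.erase j) k) * N adj f (S.erase j) l k -
        ∑ k ∈ nb adj S j, N adj f (S.erase j) l k := by
      rw [nb, sum_filter, ← sum_sub_distrib]
      refine sum_congr rfl fun k hk => ?_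
      rw [zS_erase adj z hj k]
      by_cases ha : adj j k <;> simp [ha]
      ring
    rw [h2, ← add_sum_erase _ _ hlT, ← add_sum_erase _ _ hl, N_self adj f hlT]
    have h3 : ∑ k ∈ (S.erase j).erase l, (W k + zS adj z (S.erase j) k) * N adj f (S.erase j) l k =
        f (S.erase j) - (W l + zS adj z (S.erase j) l - 2) * f ((S.erase j).erase l) := by
      rw [h1]; ring
    rw [h3]; ring
  have h4 : ∑ k ∈ S.erase j, (W k + zS adj z S k) * N adj f S j k =
      ∑ l ∈ nb adj S j, ∑ k ∈ S.erase j, (W k + zS adj z S k) * N adj f (S.erase j) l k := by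
    rw [sum_comm]
    refine sum_congr rfl fun k hk => ?_
    rw [N_ne adj f hj (ne_of_mem_erase hk).symm, mul_sum]
  rw [hW S j hj, h4, sum_congr rfl key, sum_sub_distrib, sum_add_distrib, sum_const, nsmul_eq_mul]
  ring

/-- the statement proved by induction -/
def Good (adj : V → V → Prop) (z : V → ℕ) (f : Finset V → ℂ) (S : Finset V) : Prop :=
  f S ≠ 0 ∧ ∀ j ∈ S, 2 ≤ zS adj z S j →
    (∑ k ∈ S.erase j, ‖N adj f S j k‖ * (zS adj z S k : ℝ) +
        ((zS adj z S j : ℝ) - 1) * ‖f (S.erase j)‖ ≤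
      ‖f S‖ + (f (S.erase j) / f S).re * ‖f S‖) ∧
    1 ≤ (f S / f (S.erase j)).re

theorem deg_eq (adj : V → V → Prop) (hs : ∀ a b, adj a b → adj b a) (hi : ∀ a, ¬ adj a a)
    (z : V → ℕ) (S : Finset V) (j : V) (hj : j ∈ S) :
    zS adj z S j + (nb adj S j).card = z j + (univ.filter (fun l => adj l j)).card := by
  unfold zS nb
  rw [add_assoc, ← card_union_of_disjoint]
  · congr 2
    ext l
    simp only [mem_union, mem_filter, mem_univ, true_and, mem_erase]
    constructor
    · rintro (h | h)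
      · exact h.2
      · exact hs _ _ h.2
    · intro h
      by_cases hl : l ∈ S
      · exact Or.inr ⟨⟨fun e => hi j (e ▸ h), hl⟩, hs _ _ h⟩
      · exact Or.inl ⟨hl, h⟩
  · rw [disjoint_left]
    intro l hl hl'
    exact (mem_filter.1 hl).2.1 (mem_of_mem_erase (mem_filter.1 hl').1)

theorem good_all (adj : V → V → Prop) (hs : ∀ a b, adj a b → adj b a) (hi : ∀ a, ¬ adj a a)
    (z : V → ℕ) (W : V → ℂ) (f : Finset V → ℂ) (h0 : f ∅ ≠ 0)
    (hz : ∀ k, 1 ≤ z k) (hz3 : ∀ k, 3 ≤ z k + (univ.filter (fun l => adj l k)).card)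
    (hre : ∀ k, 0 ≤ (W k).re)
    (hW : ∀ S : Finset V, ∀ j ∈ S, f S = (W j + zS adj z S j - 2) * f (S.erase j) +
      ∑ k ∈ S.erase j, (W k + zS adj z S k) * N adj f S j k)
    (S : Finset V) : Good adj z f S := by
  induction S using Finset.strongInduction with
  | _ S ih =>
  -- facts at a vertex `j` of `S`
  have step : ∀ j ∈ S, f (S.erase j) ≠ 0 ∧ 0 < (f S / f (S.erase j)).re ∧
      (2 ≤ zS adj z S j → 1 ≤ (f S / f (S.erase j)).re) ∧
      (∑ k ∈ S.erase j, ‖N adj f S j k‖ * (zS adj z S k : ℝ) +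
        ((zS adj z S j : ℝ) - 1) * ‖f (S.erase j)‖ ≤
        (1 + (f S / f (S.erase j)).re) * ‖f (S.erase j)‖) := by
    intro j hj
    have hT := ih _ (erase_ssubset hj)
    obtain ⟨hF, hTV⟩ := hT
    set T := S.erase j with hTdef
    set F := f T with hFdef
    have hFn : 0 < ‖F‖ := norm_pos_iff.2 hF
    set B := nb adj S j with hB
    have hBT : ∀ l ∈ B, l ∈ T := fun l hl => (mem_filter.1 hl).1
    have hBadj : ∀ l ∈ B, adj j l := fun l hl => (mem_filter.1 hl).2
    have hz1 : ∀ (U : Finset V) (k : V), 1 ≤ zS adj z U k := fun U k =>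
      le_trans (hz k) (Nat.le_add_right _ _)
    have hzB : ∀ l ∈ B, 2 ≤ zS adj z T l := by
      intro l hl
      rw [hTdef, zS_erase adj z hj l, if_pos (hBadj l hl)]
      have := hz1 S l
      omega
    -- abbreviations
    let x : V → ℝ := fun l => (f (T.erase l) / F).re
    let b : V → ℝ := fun l => ∑ k ∈ B.erase l, ‖N adj f T l k‖ / ‖F‖
    have hA : ∀ l ∈ B, ∑ k ∈ T.erase l, ‖N adj f T l k‖ * (zS adj z T k : ℝ) +
        ((zS adj z T l : ℝ) - 1) * ‖f (T.erase l)‖ ≤ (1 + x l) * ‖F‖ := by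
      intro l hl
      have := (hTV l (hBT l hl) (hzB l hl)).1
      calc _ ≤ _ := this
        _ = _ := by ring
    have hxpos : ∀ l ∈ B, 0 < x l := by
      intro l hl
      have h1 := (hTV l (hBT l hl) (hzB l hl)).2
      have h2 : f (T.erase l) / F = (F / f (T.erase l))⁻¹ := by rw [inv_div]
      show 0 < (f (T.erase l) / F).re
      rw [h2, Complex.inv_re]
      have h3 : (F / f (T.erase l)) ≠ 0 := by
        intro h; rw [h] at h1; simp at h1; linarith
      exact div_pos (by linarith) (Complex.normSq_pos.2 h3)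
    have hxle : ∀ l, x l ≤ ‖f (T.erase l)‖ / ‖F‖ := by
      intro l
      have := Complex.re_le_norm (f (T.erase l) / F)
      rwa [norm_div] at this
    have hb : ∀ l ∈ B, b l ≤ 1 / 2 := by
      intro l hl
      have h1 : 2 * (b l * ‖F‖) ≤ ∑ k ∈ T.erase l, ‖N adj f T l k‖ * (zS adj z T k : ℝ) := by
        have h2 : b l * ‖F‖ = ∑ k ∈ B.erase l, ‖N adj f T l k‖ := by
          show (∑ k ∈ B.erase l, ‖N adj f T l k‖ / ‖F‖) * ‖F‖ = _
          rw [sum_mul]
          exact sum_congr rfl fun k _ => div_mul_cancel₀ _ hFn.ne'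
        rw [h2, mul_sum]
        calc ∑ k ∈ B.erase l, 2 * ‖N adj f T l k‖
            ≤ ∑ k ∈ B.erase l, ‖N adj f T l k‖ * (zS adj z T k : ℝ) := by
              refine sum_le_sum fun k hk => ?_
              have hk2 : (2 : ℝ) ≤ (zS adj z T k : ℝ) := by
                exact_mod_cast hzB k (mem_of_mem_erase hk)
              nlinarith [norm_nonneg (N adj f T l k)]
          _ ≤ _ := by
              refine sum_le_sum_of_subset_of_nonneg ?_ fun k _ _ => by positivity
              intro k hk
              exact mem_erase.2 ⟨(mem_erase.1 hk).1, hBT k (mem_erase.1 hk).2⟩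
      have h3 := hA l hl
      have h4 : (1 : ℝ) * ‖f (T.erase l)‖ ≤ ((zS adj z T l : ℝ) - 1) * ‖f (T.erase l)‖ := by
        have : (2 : ℝ) ≤ (zS adj z T l : ℝ) := by exact_mod_cast hzB l hl
        nlinarith [norm_nonneg (f (T.erase l))]
      have h5 : x l * ‖F‖ ≤ ‖f (T.erase l)‖ := by
        have := hxle l
        rwa [le_div_iff₀ hFn] at this
      nlinarith
    have hbnn : ∀ l, 0 ≤ b l := fun l => sum_nonneg fun k _ => by positivity
    -- the recursion
    have hrec := rec1 adj z W f hW S j hj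
    have hr : f S / F = W j + zS adj z S j - 2 + B.card + ∑ l ∈ B, f (T.erase l) / F -
        ∑ l ∈ B, ∑ k ∈ B.erase l, N adj f T l k / F := by
      rw [hrec, ← hTdef, ← hB, ← hFdef]
      rw [sub_div, add_div, mul_div_assoc, div_self hF, mul_one, sum_div, sum_div]
      congr 1
      exact sum_congr rfl fun l _ => by rw [sum_div]
    have hρ : (zS adj z S j : ℝ) - 2 + B.card + ∑ l ∈ B, x l - ∑ l ∈ B, b l ≤ (f S / F).re := by
      rw [hr]
      have e1 : (∑ l ∈ B, f (T.erase l) / F).re = ∑ l ∈ B, x l := by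
        rw [Complex.re_sum]
      have e2 : (∑ l ∈ B, ∑ k ∈ B.erase l, N adj f T l k / F).re ≤ ∑ l ∈ B, b l := by
        rw [Complex.re_sum]
        refine sum_le_sum fun l _ => ?_
        rw [Complex.re_sum]
        refine sum_le_sum fun k _ => ?_
        have := Complex.re_le_norm (N adj f T l k / F)
        rwa [norm_div] at this
      simp only [Complex.sub_re, Complex.add_re, Complex.natCast_re, Complex.re_ofNat]
      have := hre j
      rw [e1]
      linarith
    have hdeg := hz3 j
    rw [← deg_eq adj hs hi z S j hj, ← hB] at hdeg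
    have hzj := hz1 S j
    have hsx : 0 ≤ ∑ l ∈ B, x l := sum_nonneg fun l hl => (hxpos l hl).le
    have hsb : ∑ l ∈ B, b l ≤ B.card * (1 / 2) := by
      have := sum_le_card_nsmul B b (1 / 2) hb
      simpa [nsmul_eq_mul] using this
    have hpos : 0 < (f S / F).re ∧ (2 ≤ zS adj z S j → 1 ≤ (f S / F).re) := by
      rcases Nat.lt_or_ge B.card 2 with hc | hc
      · -- at most one neighbour: no pairs
        have hb0 : ∑ l ∈ B, b l = 0 := by
          refine sum_eq_zero fun l hl => ?_
          have : B.erase l = ∅ := by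
            rw [← card_eq_zero, card_erase_of_mem hl]; omega
          show ∑ k ∈ B.erase l, ‖N adj f T l k‖ / ‖F‖ = 0
          rw [this, sum_empty]
        rw [hb0] at hρ
        have h1 : (3 : ℝ) ≤ (zS adj z S j : ℝ) + B.card := by exact_mod_cast hdeg
        constructor
        · linarith
        · intro _; linarith
      · have h2 : (2 : ℝ) ≤ B.card := by exact_mod_cast hc
        have h1 : (1 : ℝ) ≤ zS adj z S j := by exact_mod_cast hzj
        have hBne : B.Nonempty := card_pos.1 (by omega)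
        have hsx' : 0 < ∑ l ∈ B, x l := sum_pos hxpos hBne
        constructor
        · linarith
        · intro h3
          have h3' : (2 : ℝ) ≤ zS adj z S j := by exact_mod_cast h3
          linarith
    refine ⟨hF, hpos.1, hpos.2, ?_⟩
    -- the bound (b)
    have hN : ∀ k ∈ T, ‖N adj f S j k‖ ≤ ∑ l ∈ B, ‖N adj f T l k‖ := by
      intro k hk
      rw [N_ne adj f hj (ne_of_mem_erase hk).symm]
      exact norm_sum_le _ _
    have h1 : ∑ k ∈ T, ‖N adj f S j k‖ * (zS adj z S k : ℝ) ≤
        ∑ l ∈ B, ∑ k ∈ T, ‖N adj f T l k‖ * (zS adj z S k : ℝ) := by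
      rw [sum_comm]
      refine sum_le_sum fun k hk => ?_
      rw [← sum_mul]
      exact mul_le_mul_of_nonneg_right (hN k hk) (Nat.cast_nonneg _)
    have h2 : ∀ l ∈ B, ∑ k ∈ T, ‖N adj f T l k‖ * (zS adj z S k : ℝ) ≤
        (1 + x l - b l) * ‖F‖ := by
      intro l hl
      have hlT := hBT l hl
      have e1 : ∑ k ∈ T, ‖N adj f T l k‖ * (zS adj z S k : ℝ) =
          ∑ k ∈ T, ‖N adj f T l k‖ * (zS adj z T k : ℝ) - ∑ k ∈ B, ‖N adj f T l k‖ := by
        rw [hB, nb, ← hTdef, sum_filter, ← sum_sub_distrib]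
        refine sum_congr rfl fun k _ => ?_
        rw [hTdef, zS_erase adj z hj k]
        by_cases ha : adj j k <;> simp [ha]
        ring
      have e2 : b l * ‖F‖ = ∑ k ∈ B.erase l, ‖N adj f T l k‖ := by
        show (∑ k ∈ B.erase l, ‖N adj f T l k‖ / ‖F‖) * ‖F‖ = _
        rw [sum_mul]
        exact sum_congr rfl fun k _ => div_mul_cancel₀ _ hFn.ne'
      rw [e1, ← add_sum_erase _ _ hlT, ← add_sum_erase _ (fun k => ‖N adj f T l k‖) hl,
        N_self adj f hlT, ← e2]
      have := hA l hl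
      nlinarith
    have h3 : ∑ l ∈ B, ∑ k ∈ T, ‖N adj f T l k‖ * (zS adj z S k : ℝ) ≤
        ((B.card : ℝ) + ∑ l ∈ B, x l - ∑ l ∈ B, b l) * ‖F‖ := by
      calc _ ≤ ∑ l ∈ B, (1 + x l - b l) * ‖F‖ := sum_le_sum h2
        _ = _ := by
          rw [← sum_mul, sum_sub_distrib, sum_add_distrib, sum_const, nsmul_eq_mul, mul_one]
    nlinarith
  constructor
  · rcases S.eq_empty_or_nonempty with h | ⟨j, hj⟩
    · rw [h]; exact h0
    · intro h
      have := (step j hj).2.1
      rw [h, zero_div] at this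
      simp at this
  · intro j hj h2
    obtain ⟨hF, hpos, hge, hTV⟩ := step j hj
    have hρ := hge h2
    refine ⟨le_trans hTV ?_, hρ⟩
    set F := f (S.erase j)
    have hFn : 0 < ‖F‖ := norm_pos_iff.2 hF
    set r := f S / F with hr
    have hr0 : r ≠ 0 := by
      intro h; rw [h] at hρ; simp at hρ; linarith
    have hfS : f S = r * F := by rw [hr, div_mul_cancel₀ _ hF]
    have hinv : F / f S = r⁻¹ := by rw [hr, inv_div]
    have hRpos : 0 < ‖r‖ := norm_pos_iff.2 hr0
    have hRρ : r.re ≤ ‖r‖ := Complex.re_le_norm r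
    rw [hinv, Complex.inv_re, Complex.normSq_eq_norm_sq, hfS, norm_mul]
    have e : r.re / ‖r‖ ^ 2 * (‖r‖ * ‖F‖) = r.re / ‖r‖ * ‖F‖ := by
      field_simp
    rw [e]
    have h5 : 1 + r.re ≤ ‖r‖ + r.re / ‖r‖ := by
      rw [← sub_nonneg]
      have : ‖r‖ + r.re / ‖r‖ - (1 + r.re) = (‖r‖ - 1) * (‖r‖ - r.re) / ‖r‖ := by
        field_simp; ring
      rw [this]
      exact div_nonneg (mul_nonneg (by linarith) (by linarith)) hRpos.le
    nlinarith

/-- **Star theorem, analytic form.** -/
theorem ne_zero_of_ward (adj : V → V → Prop) (hs : ∀ a b, adj a b → adj b a)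
    (hi : ∀ a, ¬ adj a a) (z : V → ℕ) (W : V → ℂ) (f : Finset V → ℂ) (h0 : f ∅ ≠ 0)
    (hz : ∀ k, 1 ≤ z k) (hz3 : ∀ k, 3 ≤ z k + (univ.filter (fun l => adj l k)).card)
    (hre : ∀ k, 0 ≤ (W k).re)
    (hW : ∀ S : Finset V, ∀ j ∈ S, f S = (W j + zS adj z S j - 2) * f (S.erase j) +
      ∑ k ∈ S.erase j, (W k + zS adj z S k) * N adj f S j k) :
    f univ ≠ 0 :=
  (good_all adj hs hi z W f h0 hz hz3 hre hW univ).1

end Pool.Agent.StarN
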